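import Pool.Agent.helper63.TI.SpecA

/-!
# Project ti, row WCI: the elements `τ`, `φ` at an Eisenstein prime
-/

set_option autoImplicit false

namespace Pool.Agent.TI

open Polynomial NumberField Pool.Agent.GJ Pool.Agent.TK Pool.Agent.TQ Pool.Agent.TFQ Pool.Agent.TD Pool.Agent.AQ
open Pool.Agent.FJ (VT Om chiO IsFrobO rf rs)
open scoped TensorProduct

noncomputable section

theorem WCI_mem {Ω V : Type} [Field Ω] [AddCommGroup V] [Module Ω V] (Z : V →ₗ[Ω] V) (ζ : Ω) (r : ℕ) (x : V) :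
    x ∈ eg Z ζ r ↔ Z x = ζ ^ r • x := by
  unfold eg
  rw [LinearMap.mem_ker, LinearMap.sub_apply, LinearMap.smul_apply, LinearMap.id_apply, sub_eq_zero]

theorem WCI_comm {q : ℕ} [Fact q.Prime] {V : Type} [AddCommGroup V] [Module ℚ_[q] V] (Z g : V →ₗ[ℚ_[q]] V)
    (h : ∀ v, g (Z v) = Z (g v)) (x : PadicAlgCl q ⊗[ℚ_[q]] V) : bs g (bs Z x) = bs Z (bs g x) := by
  have h1 : g ∘ₗ Z = Z ∘ₗ g := LinearMap.ext h
  have h2 : bs g ∘ₗ bs Z = bs Z ∘ₗ bs g := by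
    unfold bs
    rw [← LinearMap.baseChange_comp, ← LinearMap.baseChange_comp, h1]
  exact LinearMap.congr_fun h2 x

theorem WCI_pz (m p l : ℕ) (hm : m.Prime) (hp : p.Prime) (hl : l.Prime) (hlp : l ∣ p - 1)
    (hgen : ∀ x y : ZMod m, x ≠ 0 → y ≠ 0 → ∃ k : ℕ, y = (p : ZMod m) ^ k * x) : (p : ZMod m) ≠ 0 := by
  intro h0
  haveI : Fact m.Prime := ⟨hm⟩
  have h1 : (1 : ZMod m) ≠ 0 := one_ne_zero
  have h2 : (-1 : ZMod m) ≠ 0 := neg_ne_zero.2 h1
  obtain ⟨k, hk⟩ := hgen 1 (-1) h1 h2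
  rw [h0, mul_one] at hk
  have hmp : m ∣ p := (ZMod.natCast_eq_zero_iff p m).1 h0
  have hmp' : m = p := (Nat.prime_dvd_prime_iff_eq hm hp).1 hmp
  rcases Nat.eq_zero_or_pos k with hk0 | hk0
  · rw [hk0, pow_zero] at hk
    have h3 : ((2 : ℕ) : ZMod m) = 0 := by
      have : (1 : ZMod m) + 1 = 0 := by
        nth_rewrite 1 [← hk]
        simp
      push_cast
      rw [← this]
      norm_num
    have h4 : m ∣ 2 := (ZMod.natCast_eq_zero_iff 2 m).1 h3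
    have h5 : m = 2 := (Nat.prime_dvd_prime_iff_eq hm Nat.prime_two).1 h4
    rw [← hmp', h5] at hlp
    have h6 : l ∣ 1 := hlp
    exact hl.one_lt.ne' (Nat.dvd_one.1 h6)
  · rw [zero_pow hk0.ne'] at hk
    exact h2 hk

theorem WCI_pow {Ω V : Type} [Field Ω] [AddCommGroup V] [Module Ω V] (g : Module.End Ω V) (x : V) (c : Ω) (h : g x = c • x) (k : ℕ) :
    (g ^ k) x = c ^ k • x := by
  induction k with
  | zero => simp
  | succ k ih => rw [pow_succ, Module.End.mul_apply, h, map_smul, ih, smul_smul, pow_succ']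

theorem WCI_sc {Ω V : Type} [Field Ω] [AddCommGroup V] [Module Ω V] (g : Module.End Ω V) {E : Submodule Ω V} {n : ℕ}
    (v : Module.Basis (Fin n) Ω E) (N : ℕ) (a : Fin n → Ω) (C : Ω) (ha : ∀ j, a j ^ N = C) (hv : ∀ j, g (v j : V) = a j • (v j : V)) :
    ∀ x ∈ E, (g ^ N) x = C • x := by
  intro x hx
  have h1 : (g ^ N) ∘ₗ E.subtype = C • E.subtype := by
    refine Module.Basis.ext v fun j => ?_
    rw [LinearMap.comp_apply, LinearMap.smul_apply]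
    have h2 := WCI_pow g (v j : V) _ (hv j) N
    rw [ha j] at h2
    exact h2
  exact LinearMap.congr_fun h1 ⟨x, hx⟩

theorem WCI (hCYC : CYC_stmt) (hBRF : AQ.BRF_stmt) (hBGP : AQ.BGP_stmt) : WCI_stmt := by
  intro l p _ _ hl2 hlp D hD i hpr hgen hμ F u hF1 hF2 hF3
  obtain ⟨τ, φ, hτ, hφ, hmain⟩ := hBRF l p hl2 hlp D hD i hpr hgen hμ F u hF1 hF2 hF3
  have hpp : p.Prime := Fact.out
  have hll : l.Prime := Fact.out
  refine ⟨τ, φ, hτ, hφ, ⟨hφ, ?_⟩, ?_⟩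
  · intro s hs ζ hζ r hr hrl
    have hlp' : l ≠ p := by
      intro h
      rw [h] at hlp
      have h1 : p - 1 = 0 := by
        rcases Nat.eq_zero_or_pos (p - 1) with h2 | h2
        · exact h2
        · have := Nat.le_of_dvd h2 hlp
          have := hpp.pos
          omega
      have := hpp.two_le
      omega
    obtain ⟨⟨c, ω, v, hc, hω, hv1, hv2⟩, _⟩ := hmain l hlp' (PadicAlgCl l) ζ hζ s hs r hr hrl
    have hcomm : ∀ x ∈ ES D l i s ζ r, bs (galP l hφ i) x ∈ ES D l i s ζ r := by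
      intro x hx
      have hx' := (WCI_mem _ ζ r x).1 hx
      refine (WCI_mem _ ζ r _).2 ?_
      have h1 : bs (galP l hφ i) (bs (zA D l i s) x) = bs (zA D l i s) (bs (galP l hφ i) x) :=
        WCI_comm (zA D l i s) (galP l hφ i) (fun w => ((hBGP l l D).2.2.2 i).2.2.2.1 φ hφ s w) x
      rw [← h1, hx', map_smul]
    obtain ⟨κ, ξ, w, hκ, hξ, hξn, hw⟩ := hCYC (PadicAlgCl l) (ES D l i s ζ r) (D.n i) p hpr
      (WCI_pz _ p l hpr hpp hll hlp hgen) hgen v ((bs (galP l hφ i)).restrict hcomm) (by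
        intro j j' hjj
        obtain ⟨d, hd, hd'⟩ := hv2 j j' hjj
        exact ⟨d, hd, Subtype.ext hd'⟩)
    exact ⟨κ, ξ, w, hκ, hξ, hξn, fun t => congrArg Subtype.val (hw t)⟩
  · intro q _ hqp ζ hζ s hs r hr hrl
    obtain ⟨⟨c, ω, v, hc, hω, hv1, hv2⟩, hirr⟩ := hmain q hqp (PadicAlgCl q) ζ hζ s hs r hr hrl
    refine ⟨⟨c ^ (D.n i + 1), ?_⟩, ?_⟩
    · exact WCI_sc (bs (galP q hτ i)) v (D.n i + 1) (fun j => c * ω ^ ((j : ℕ) + 1)) (c ^ (D.n i + 1)) (fun j => by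
        rw [mul_pow, ← pow_mul, mul_comm ((j : ℕ) + 1), pow_mul, hω.pow_eq_one, one_pow, mul_one]) hv1
    · intro W hW h1 h2
      exact hirr W hW h1 h2

end

end Pool.Agent.TI
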